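import Mathlib
import Pool.Agent.R298.Fr.G

/-!
Every biflat Fréchet algebra has weak bidimension at most two.
-/

set_option autoImplicit false

namespace Pool.Agent.Results.MP_afeff1_an.WeakBidim

open Pool.Agent.Helper832.PN Pool.Agent.R298.Fr

universe u

/-- Every biflat Fréchet algebra `A` satisfies `wdb A ≤ 2`. -/
theorem result (A : Type u) [NonUnitalRing A] [Module ℂ A] [UniformSpace A] [IsFrAlg A]
    (h : Biflat A) : wdb A ≤ 2 :=
  wdb_le_two h

end Pool.Agent.Results.MP_afeff1_an.WeakBidim
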